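import Mathlib

/-!
# Project CR: the Collatz map with a small random perturbation, statements of the parts

`T e n = n / 2` for even `n` and `T e n = (3 n + 1) / 2 + e n` for odd `n`; `e n ≥ 0` are independent random
integers, small, with nearly uniform residues modulo 4 (for instance uniform on `{0, 1, 2, 3}`).

Every part is a proposition `S_...`; the job is to prove `theorem t_... : S_...`.
-/

set_option autoImplicit false

open MeasureTheory Filter Topology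
open scoped ENNReal

namespace Pool.Agent.U204.CR

/-- the perturbed Collatz map -/
def T (e : ℕ → ℕ) (n : ℕ) : ℕ := if n % 2 = 0 then n / 2 else (3 * n + 1) / 2 + e n

/-- the odd part of `(3 n + 1) / 2 + c` -/
def nx (n c : ℕ) : ℕ := ordCompl[2] ((3 * n + 1) / 2 + c)

/-- the odd iterates of the odd number `n` -/
def od (e : ℕ → ℕ) (n : ℕ) : ℕ → ℕ
  | 0 => n
  | i + 1 => nx (od e n i) (e (od e n i))

/-- the first `k` odd iterates of `n` are different, and they and the next one are at least `L` -/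
def Long (e : ℕ → ℕ) (n k : ℕ) (L : ℝ) : Prop :=
  (∀ i j, i < k → j < k → od e n i = od e n j → i = j) ∧ ∀ i ≤ k, L ≤ (od e n i : ℝ)

/-- the perturbations are small -/
def Small (B : ℝ) (e : ℕ → ℕ) : Prop := ∀ n, (e n : ℝ) ≤ B * (n : ℝ) ^ (1 / 4 : ℝ)

/-- the conditions on the laws of the perturbations -/
structure Laws (B : ℝ) (μ : ℕ → Measure ℕ) : Prop where
  size : ∀ n, μ n {c | B * (n : ℝ) ^ (1 / 4 : ℝ) < (c : ℝ)} = 0
  res : ∀ n c, n % 2 = 1 → c < 4 → μ n {m | m % 4 = c} ≤ ENNReal.ofReal (1 / 4 + 1 / 1000)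

/-- CYL: cylinders -/
def S_CYL : Prop := ∀ (μ : ℕ → Measure ℕ) [∀ n, IsProbabilityMeasure (μ n)] (k : ℕ)
  (v : Fin k → ℕ) (t : Fin k → Set ℕ), Function.Injective v →
  Measure.infinitePi μ {e | ∀ i, e (v i) ∈ t i} = ∏ i, μ (v i) (t i)

/-- PATH: superharmonic weights bound the probability of long paths -/
def S_PATH : Prop := S_CYL → ∀ (μ : ℕ → Measure ℕ) [∀ n, IsProbabilityMeasure (μ n)] (L : ℝ)
  (W : ℕ → ℕ → ℝ≥0∞), (∀ n : ℕ, n % 2 = 1 → L ≤ (n : ℝ) → 1 ≤ W 0 n) →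
  (∀ k n : ℕ, n % 2 = 1 → L ≤ (n : ℝ) → ∑' y : ℕ, μ n {c | nx n c = y} * W k y ≤ W (k + 1) n) →
  ∀ k n : ℕ, n % 2 = 1 → Measure.infinitePi μ {e | Long e n k L} ≤ W k n

/-- POT: the square root decreases on average -/
def S_POT : Prop := ∀ B : ℝ, 0 ≤ B → ∃ L₀ : ℝ, 1 ≤ L₀ ∧ ∀ (μ : ℕ → Measure ℕ)
  [∀ n, IsProbabilityMeasure (μ n)], Laws B μ → ∀ n : ℕ, n % 2 = 1 → L₀ ≤ (n : ℝ) →
  ∑' y : ℕ, μ n {c | nx n c = y} * ENNReal.ofReal (Real.sqrt y) ≤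
    ENNReal.ofReal (99 / 100 * Real.sqrt n)

/-- CYC: there are no short cycles of large numbers -/
def S_CYC : Prop := ∀ B C : ℝ, 0 ≤ B → 0 ≤ C → ∃ N₁ : ℕ, ∀ e : ℕ → ℕ, Small B e →
  ∀ n ≥ N₁, ∀ y a : ℕ, 1 ≤ a → (a : ℝ) ≤ C * Real.log n →
  (∀ i ≤ a, Real.sqrt n ≤ (od e y i : ℝ)) → od e y a ≠ y

/-- TIME: the number of steps of `T` between odd iterates -/
def S_TIME : Prop := ∀ B : ℝ, 0 ≤ B → ∃ L₀ : ℝ, ∀ e : ℕ → ℕ, Small B e → ∀ n : ℕ, n % 2 = 1 →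
  ∀ i : ℕ, (∀ j < i, L₀ ≤ (od e n j : ℝ)) →
  ∃ m : ℕ, (T e)^[m] n = od e n i ∧ 2 ^ m * od e n i ≤ 4 ^ i * n

/-- FIN: maps with logarithmic descent -/
def S_FIN : Prop := ∀ (f : ℕ → ℕ) (C : ℝ), 0 ≤ C →
  (∀ᶠ n : ℕ in atTop, ∃ m : ℕ, (m : ℝ) ≤ C * Real.log n ∧ ((f^[m] n : ℕ) : ℝ) ≤ Real.sqrt n) →
  (Function.periodicPts f).Finite ∧ ∃ D : ℝ, ∀ n : ℕ, 1 ≤ n →
    ∃ m : ℕ, (m : ℝ) ≤ 2 * C * Real.log n + D ∧ f^[m] n ∈ Function.periodicPts f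

/-- BC: almost surely there are no long paths -/
def S_BC : Prop := S_PATH → S_CYL → S_POT → ∀ B : ℝ, 0 ≤ B → ∀ (μ : ℕ → Measure ℕ)
  [∀ n, IsProbabilityMeasure (μ n)], Laws B μ → ∀ᵐ e ∂(Measure.infinitePi μ),
  ∀ᶠ n : ℕ in atTop, n % 2 = 1 → ¬ Long e n ⌈230 * Real.log n⌉₊ (Real.sqrt n)

/-- DET: logarithmic descent of the perturbed map -/
def S_DET : Prop := S_CYC → S_TIME → ∀ B : ℝ, 0 ≤ B → ∀ e : ℕ → ℕ, Small B e →
  (∀ᶠ n : ℕ in atTop, n % 2 = 1 → ¬ Long e n ⌈230 * Real.log n⌉₊ (Real.sqrt n)) →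
  ∀ᶠ n : ℕ in atTop, ∃ m : ℕ, (m : ℝ) ≤ 500 * Real.log n ∧
    (((T e)^[m] n : ℕ) : ℝ) ≤ Real.sqrt n

/-- the assembly -/
theorem assembly (h1 : S_CYL) (h2 : S_PATH) (h3 : S_POT) (h4 : S_CYC) (h5 : S_TIME) (h6 : S_FIN)
    (h7 : S_BC) (h8 : S_DET) (B : ℝ) (hB : 0 ≤ B) (μ : ℕ → Measure ℕ)
    [∀ n, IsProbabilityMeasure (μ n)] (hμ : Laws B μ) :
    ∀ᵐ e ∂(Measure.infinitePi μ), (Function.periodicPts (T e)).Finite ∧
      ∃ D : ℝ, ∀ n : ℕ, 1 ≤ n → ∃ m : ℕ, (m : ℝ) ≤ 1000 * Real.log n + D ∧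
        (T e)^[m] n ∈ Function.periodicPts (T e) := by
  have hsm : ∀ᵐ e ∂(Measure.infinitePi μ), Small B e := by
    refine ae_all_iff.2 fun n => ?_
    have h := h1 μ 1 (fun _ => n) (fun _ => {c | B * (n : ℝ) ^ (1 / 4 : ℝ) < (c : ℝ)})
      (fun i j _ => Subsingleton.elim i j)
    rw [Fin.prod_univ_one, hμ.size n] at h
    rw [ae_iff]
    refine le_antisymm ((measure_mono ?_).trans h.le) bot_le
    intro e he i
    exact not_le.1 he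
  filter_upwards [hsm, h7 h2 h1 h3 B hB μ hμ] with e he hl
  have h := h6 (T e) 500 (by norm_num) (h8 h4 h5 B hB e he hl)
  refine ⟨h.1, ?_⟩
  obtain ⟨D, hD⟩ := h.2
  refine ⟨D, fun n hn => ?_⟩
  obtain ⟨m, hm, hp⟩ := hD n hn
  exact ⟨m, by linarith, hp⟩

end Pool.Agent.U204.CR
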